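import Pool.Agent.R341.SG.Stm

/-! SG-V: variance of densities on random subsets. -/

namespace Pool.Agent.R543.SGV

open Pool.Agent.R341.SG Finset

noncomputable section

variable {α : Type} [DecidableEq α]

/-- number of `r`-subsets of `K` in `B` -/
def b (B : Finset (Finset α)) (r : ℕ) (K : Finset α) : ℝ :=
  (((powersetCard r K).filter fun I => I ∈ B).card : ℝ)

/-- density of `B` in the `r`-subsets of `K` -/
def Nn (B : Finset (Finset α)) (r : ℕ) (K : Finset α) : ℝ := b B r K / (K.card.choose r : ℝ)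

theorem double (J : Finset α) (k : ℕ) (g : Finset α → ℝ) :
    ∑ L ∈ powersetCard (k + 1) J, ∑ x ∈ L, g (L.erase x) =
      ((J.card : ℝ) - k) * ∑ K ∈ powersetCard k J, g K := by
  have h1 : ((J.card : ℝ) - k) * ∑ K ∈ powersetCard k J, g K =
      ∑ K ∈ powersetCard k J, ∑ _x ∈ J \ K, g K := by
    rw [mul_sum]
    refine sum_congr rfl fun K hK => ?_
    rw [mem_powersetCard] at hK
    rw [sum_const, nsmul_eq_mul, card_sdiff_of_subset hK.1, hK.2, Nat.cast_sub]
    rw [← hK.2]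
    exact card_le_card hK.1
  rw [h1, sum_sigma', sum_sigma']
  refine sum_bij' (fun p _ => ⟨p.1.erase p.2, p.2⟩) (fun p _ => ⟨insert p.2 p.1, p.2⟩) ?_ ?_ ?_ ?_ ?_
  · rintro ⟨L, x⟩ h
    simp only [mem_sigma, mem_powersetCard, mem_sdiff] at h ⊢
    obtain ⟨⟨h1, h2⟩, h3⟩ := h
    refine ⟨⟨(erase_subset _ _).trans h1, ?_⟩, h1 h3, notMem_erase _ _⟩
    rw [card_erase_of_mem h3, h2]
    rfl
  · rintro ⟨K, x⟩ h
    simp only [mem_sigma, mem_powersetCard, mem_sdiff] at h ⊢
    obtain ⟨⟨h1, h2⟩, h3, h4⟩ := h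
    refine ⟨⟨insert_subset h3 h1, ?_⟩, mem_insert_self _ _⟩
    rw [card_insert_of_notMem h4, h2]
  · rintro ⟨L, x⟩ h
    simp only [mem_sigma, mem_powersetCard] at h
    simp only [insert_erase h.2]
  · rintro ⟨K, x⟩ h
    simp only [mem_sigma, mem_powersetCard, mem_sdiff] at h
    simp only [erase_insert h.2.2]
  · rintro ⟨L, x⟩ h
    rfl

theorem b_sum (B : Finset (Finset α)) (r : ℕ) (L : Finset α) (k : ℕ) (hL : L.card = k + 1)
    (hr : r ≤ k) : ∑ x ∈ L, b B r (L.erase x) = ((k : ℝ) + 1 - r) * b B r L := by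
  have h1 : ∀ x ∈ L, b B r (L.erase x) =
      ∑ I ∈ (powersetCard r L).filter (fun I => I ∈ B), if x ∉ I then (1 : ℝ) else 0 := by
    intro x _
    unfold b
    rw [← sum_filter, filter_filter, sum_const, nsmul_eq_mul, mul_one]
    congr 2
    ext I
    simp only [mem_filter, mem_powersetCard]
    constructor
    · rintro ⟨⟨h1, h2⟩, h3⟩
      exact ⟨⟨h1.trans (erase_subset _ _), h2⟩, h3, fun hx => notMem_erase x L (h1 hx)⟩
    · rintro ⟨⟨h1, h2⟩, h3, h4⟩
      exact ⟨⟨subset_erase.2 ⟨h1, h4⟩, h2⟩, h3⟩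
  rw [sum_congr rfl h1, sum_comm]
  have h2 : ∀ I ∈ (powersetCard r L).filter (fun I => I ∈ B),
      ∑ x ∈ L, (if x ∉ I then (1 : ℝ) else 0) = (k : ℝ) + 1 - r := by
    intro I hI
    rw [mem_filter, mem_powersetCard] at hI
    rw [← sum_filter, sum_const, nsmul_eq_mul, mul_one, filter_notMem_eq_sdiff,
      card_sdiff_of_subset hI.1.1, hL, hI.1.2, Nat.cast_sub (by omega)]
    push_cast
    ring
  rw [sum_congr rfl h2, sum_const, nsmul_eq_mul]
  unfold b
  ring

theorem N_sum (B : Finset (Finset α)) (r : ℕ) (L : Finset α) (k : ℕ) (hL : L.card = k + 1)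
    (hr : r ≤ k) : ∑ x ∈ L, Nn B r (L.erase x) = ((k : ℝ) + 1) * Nn B r L := by
  have h1 : ∀ x ∈ L, Nn B r (L.erase x) = b B r (L.erase x) / (k.choose r : ℝ) := by
    intro x hx
    unfold Nn
    rw [card_erase_of_mem hx, hL]
    rfl
  rw [sum_congr rfl h1, ← sum_div, b_sum B r L k hL hr]
  unfold Nn
  rw [hL]
  have hc : (k.choose r : ℝ) * (k + 1) = ((k + 1).choose r : ℝ) * ((k : ℝ) + 1 - r) := by
    have := Nat.choose_mul_succ_eq k r
    have h2 : ((k.choose r * (k + 1) : ℕ) : ℝ) = (((k + 1).choose r * (k + 1 - r) : ℕ) : ℝ) := by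
      rw [this]
    push_cast [Nat.cast_sub (show r ≤ k + 1 by omega)] at h2
    exact h2
  have p1 : (0 : ℝ) < (k.choose r : ℝ) := by exact_mod_cast Nat.choose_pos hr
  have p2 : (0 : ℝ) < ((k + 1).choose r : ℝ) := by
    exact_mod_cast Nat.choose_pos (show r ≤ k + 1 by omega)
  rw [div_eq_iff p1.ne', mul_div_assoc', div_mul_eq_mul_div, eq_div_iff p2.ne']
  linear_combination (-b B r L) * hc

/-- local inequality -/
theorem loc (L : Finset α) (k : ℕ) (hL : L.card = k + 1) (c : α → α → ℝ)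
    (hsym : ∀ x y, c x y = c y x) (rr : α → ℝ)
    (hr : ∀ x ∈ L, ∑ y ∈ L.erase x, c x y = k * rr x) (N : ℝ)
    (hN : ∑ x ∈ L, rr x = (k + 1) * N) :
    0 ≤ ∑ x ∈ L, ∑ y ∈ L.erase x, c x y ^ 2 - 2 * (k + 1) * ∑ x ∈ L, rr x ^ 2 +
      (k + 1) * (k + 2) * N ^ 2 := by
  set R2 := ∑ x ∈ L, rr x ^ 2 with hR2
  have hswap : ∑ x ∈ L, ∑ y ∈ L.erase x, c x y * rr y = k * R2 := by
    have e1 : ∑ x ∈ L, ∑ y ∈ L.erase x, c x y * rr y =
        ∑ y ∈ L, ∑ x ∈ L.erase y, c x y * rr y := by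
      refine sum_comm' fun x y => ?_
      simp only [mem_erase, ne_eq]
      tauto
    rw [e1, hR2, mul_sum]
    refine sum_congr rfl fun y hy => ?_
    rw [← sum_mul, sum_congr rfl fun x _ => hsym x y, hr y hy]
    ring
  have hcard : ∀ x ∈ L, (((L.erase x).card : ℕ) : ℝ) = k := by
    intro x hx
    rw [card_erase_of_mem hx, hL]
    simp
  have hin : ∀ x ∈ L, ∑ y ∈ L.erase x, (c x y - rr x - rr y + N) ^ 2 =
      ∑ y ∈ L.erase x, c x y ^ 2 - 2 * ∑ y ∈ L.erase x, c x y * rr y +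
        (-2 * k * rr x ^ 2 + 2 * N * k * rr x + k * rr x ^ 2 + (R2 - rr x ^ 2) + k * N ^ 2 +
          2 * rr x * ((k + 1) * N - rr x) - 2 * N * k * rr x - 2 * N * ((k + 1) * N - rr x)) := by
    intro x hx
    have s1 : ∑ y ∈ L.erase x, rr y = (k + 1) * N - rr x := by
      rw [← hN, ← add_sum_erase L rr hx]
      ring
    have s2 : ∑ y ∈ L.erase x, rr y ^ 2 = R2 - rr x ^ 2 := by
      rw [hR2, ← add_sum_erase L (fun x => rr x ^ 2) hx]
      ring
    have e : ∀ y ∈ L.erase x, (c x y - rr x - rr y + N) ^ 2 =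
        c x y ^ 2 - 2 * (c x y * rr y) + (2 * N - 2 * rr x) * c x y + rr y ^ 2 +
          (2 * rr x - 2 * N) * rr y + (rr x ^ 2 + N ^ 2 - 2 * N * rr x) := by
      intro y _
      ring
    rw [sum_congr rfl e, sum_add_distrib, sum_add_distrib, sum_add_distrib, sum_add_distrib,
      sum_sub_distrib, ← mul_sum, ← mul_sum, ← mul_sum, s1, s2, hr x hx, sum_const, nsmul_eq_mul,
      hcard x hx]
    ring
  have htot : 0 ≤ ∑ x ∈ L, ∑ y ∈ L.erase x, (c x y - rr x - rr y + N) ^ 2 :=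
    sum_nonneg fun x _ => sum_nonneg fun y _ => sq_nonneg _
  rw [sum_congr rfl hin] at htot
  have e2 : ∀ x ∈ L, (-2 * k * rr x ^ 2 + 2 * N * k * rr x + k * rr x ^ 2 + (R2 - rr x ^ 2) +
      k * N ^ 2 + 2 * rr x * ((k + 1) * N - rr x) - 2 * N * k * rr x -
        2 * N * ((k + 1) * N - rr x)) = (-(k : ℝ) - 3) * rr x ^ 2 + (2 * (k + 1) * N + 2 * N) * rr x +
          (R2 + k * N ^ 2 - 2 * (k + 1) * N ^ 2) := by
    intro x _
    ring
  rw [sum_add_distrib, sum_sub_distrib, ← mul_sum, hswap, sum_congr rfl e2, sum_add_distrib,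
    sum_add_distrib, ← mul_sum, ← mul_sum, hN, ← hR2, sum_const, nsmul_eq_mul, hL] at htot
  push_cast at htot
  nlinarith [htot]

/-- sum of squares -/
def T (B : Finset (Finset α)) (r : ℕ) (J : Finset α) (k : ℕ) : ℝ :=
  ∑ K ∈ powersetCard k J, Nn B r K ^ 2

theorem T_conv (B : Finset (Finset α)) (r : ℕ) (J : Finset α) (i : ℕ) (hi : r ≤ i) :
    0 ≤ ((J.card : ℝ) - i - 1) * (J.card - i) * T B r J i -
      2 * (i + 2) * (J.card - i - 1) * T B r J (i + 1) + (i + 2) * (i + 3) * T B r J (i + 2) := by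
  have h1 : 0 ≤ ∑ L ∈ powersetCard (i + 1 + 1) J, (∑ x ∈ L, ∑ y ∈ L.erase x,
      Nn B r ((L.erase x).erase y) ^ 2 - 2 * (((i + 1 : ℕ) : ℝ) + 1) * ∑ x ∈ L, Nn B r (L.erase x) ^ 2 +
      (((i + 1 : ℕ) : ℝ) + 1) * (((i + 1 : ℕ) : ℝ) + 2) * Nn B r L ^ 2) := by
    refine sum_nonneg fun L hL => ?_
    rw [mem_powersetCard] at hL
    refine loc L (i + 1) hL.2 (fun x y => Nn B r ((L.erase x).erase y)) ?_
      (fun x => Nn B r (L.erase x)) ?_ (Nn B r L) ?_
    · intro x y
      simp only [erase_right_comm]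
    · intro x hx
      have hc : (L.erase x).card = i + 1 := by
        rw [card_erase_of_mem hx, hL.2]
        rfl
      rw [N_sum B r (L.erase x) i hc hi]
      push_cast
      ring
    · rw [N_sum B r L (i + 1) hL.2 (by omega)]
  rw [sum_add_distrib, sum_sub_distrib, ← mul_sum, ← mul_sum] at h1
  have d1 := double J (i + 1) (fun K => ∑ y ∈ K, Nn B r (K.erase y) ^ 2)
  have d2 := double J i (fun K => Nn B r K ^ 2)
  have d3 := double J (i + 1) (fun K => Nn B r K ^ 2)
  rw [d2] at d1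
  rw [d1, d3] at h1
  unfold T
  push_cast at h1
  have e : ((J.card : ℝ) - i - 1) * (J.card - i) * ∑ K ∈ powersetCard i J, Nn B r K ^ 2 -
      2 * (i + 2) * (J.card - i - 1) * ∑ K ∈ powersetCard (i + 1) J, Nn B r K ^ 2 +
      (i + 2) * (i + 3) * ∑ K ∈ powersetCard (i + 2) J, Nn B r K ^ 2 =
      ((J.card : ℝ) - (i + 1)) * ((J.card - i) * ∑ K ∈ powersetCard i J, Nn B r K ^ 2) -
      2 * ((i : ℝ) + 1 + 1) * ((J.card - (i + 1)) * ∑ K ∈ powersetCard (i + 1) J, Nn B r K ^ 2) +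
      ((i : ℝ) + 1 + 1) * (i + 1 + 2) * ∑ K ∈ powersetCard (i + 1 + 1) J, Nn B r K ^ 2 := by ring
  rw [e]
  exact h1

theorem T_mono (B : Finset (Finset α)) (r : ℕ) (J : Finset α) (i : ℕ) (hi : r ≤ i) :
    ((i : ℝ) + 1) * T B r J (i + 1) ≤ (J.card - i) * T B r J i := by
  have d := double J i (fun K => Nn B r K ^ 2)
  unfold T
  rw [← d, mul_sum]
  refine sum_le_sum fun L hL => ?_
  rw [mem_powersetCard] at hL
  have h1 := N_sum B r L i hL.2 hi
  have h2 := sq_sum_le_card_mul_sum_sq (s := L) (f := fun x => Nn B r (L.erase x))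
  rw [h1, hL.2] at h2
  push_cast at h2
  have hp : (0 : ℝ) < (i : ℝ) + 1 := by positivity
  have h3 : ((i : ℝ) + 1) * (((i : ℝ) + 1) * Nn B r L ^ 2) ≤
      ((i : ℝ) + 1) * ∑ x ∈ L, Nn B r (L.erase x) ^ 2 := by
    refine le_trans (le_of_eq ?_) h2
    ring
  exact le_of_mul_le_mul_left h3 hp

/-- sum of the densities -/
theorem M_step (B : Finset (Finset α)) (r : ℕ) (J : Finset α) (i : ℕ) (hi : r ≤ i) :
    ((i : ℝ) + 1) * ∑ K ∈ powersetCard (i + 1) J, Nn B r K =
      (J.card - i) * ∑ K ∈ powersetCard i J, Nn B r K := by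
  have d := double J i (fun K => Nn B r K)
  rw [← d, mul_sum]
  refine sum_congr rfl fun L hL => ?_
  rw [mem_powersetCard] at hL
  rw [N_sum B r L i hL.2 hi]

theorem choose_step (j i : ℕ) (hij : i < j) :
    (j.choose (i + 1) : ℝ) * ((i : ℝ) + 1) = j.choose i * ((j : ℝ) - i) := by
  have h := Nat.choose_succ_right_eq j i
  have h2 : ((j.choose (i + 1) * (i + 1) : ℕ) : ℝ) = ((j.choose i * (j - i) : ℕ) : ℝ) := by rw [h]
  push_cast [Nat.cast_sub hij.le] at h2
  exact h2

/-- abstract convexity argument -/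
theorem conv_abs (S : ℕ → ℝ) (r j : ℕ) (h1 : ∀ i, r ≤ i → i < j → S (i + 1) ≤ S i)
    (h2 : ∀ i, r ≤ i → i + 1 < j → S (i + 1) - S (i + 2) ≤ S i - S (i + 1)) :
    ∀ k, r ≤ k → k ≤ j → ((j : ℝ) - r) * (S k - S j) ≤ ((j : ℝ) - k) * (S r - S j) := by
  have hd : ∀ i, r ≤ i → ∀ m, i + m < j → S (i + m) - S (i + m + 1) ≤ S i - S (i + 1) := by
    intro i hi m
    induction m with
    | zero => intro _; simp
    | succ m ih =>
      intro hm
      have a1 := ih (by omega)
      have a2 := h2 (i + m) (by omega) (by omega)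
      have e1 : i + (m + 1) = i + m + 1 := by ring
      rw [e1]
      linarith
  have hs : ∀ i, r ≤ i → ∀ m, i + m ≤ j → S i - S (i + m) ≤ m * (S i - S (i + 1)) := by
    intro i hi m
    induction m with
    | zero => intro _; simp
    | succ m ih =>
      intro hm
      have a1 := ih (by omega)
      have a2 := hd i hi m (by omega)
      have e1 : i + (m + 1) = i + m + 1 := by ring
      rw [e1]
      push_cast
      linarith
  intro k hk
  induction k, hk using Nat.le_induction with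
  | base => intro _; exact le_rfl
  | succ k hk ih =>
    intro hkj
    have a1 := ih (by omega)
    have a2 := hs k hk (j - k) (by omega)
    have e1 : k + (j - k) = j := by omega
    rw [e1, Nat.cast_sub (by omega)] at a2
    have hkj' : (k : ℝ) + 1 ≤ j := by exact_mod_cast hkj
    have hrk : (r : ℝ) ≤ k := by exact_mod_cast hk
    have a3 : ((j : ℝ) - k) * (S (k + 1) - S j) ≤ (j - k - 1) * (S k - S j) := by nlinarith
    have a4 : ((j : ℝ) - k) * (((j : ℝ) - r) * (S (k + 1) - S j)) ≤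
        ((j : ℝ) - k) * ((j - k - 1) * (S r - S j)) := by
      have b1 := mul_le_mul_of_nonneg_left a3 (show (0 : ℝ) ≤ (j : ℝ) - r by linarith)
      have b2 := mul_le_mul_of_nonneg_left a1 (show (0 : ℝ) ≤ (j : ℝ) - k - 1 by linarith)
      nlinarith
    have a5 := le_of_mul_le_mul_left a4 (show (0 : ℝ) < (j : ℝ) - k by linarith)
    push_cast
    refine a5.trans (le_of_eq ?_)
    ring

theorem main (r rp j : ℕ) (J : Finset α) (hJ : J.card = j) (hr : r ≤ rp) (hrp : rp ≤ j)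
    (hrj : r < j) (B : Finset (Finset α)) (y : ℝ) (hy : 0 < y)
    (hB : y * (j.choose r : ℝ) ≤ (((powersetCard r J).filter fun I => I ∈ B).card : ℝ)) :
    ((((powersetCard rp J).filter fun K =>
      (((powersetCard r K).filter fun I => I ∈ B).card : ℝ) < y / 2 * (rp.choose r : ℝ)).card : ℕ) : ℝ)
    ≤ 4 * ((j : ℝ) - rp) / (((j : ℝ) - r) * y) * (j.choose rp : ℝ) := by
  have hC : ∀ i, i ≤ j → (0 : ℝ) < (j.choose i : ℝ) := fun i hi => by
    exact_mod_cast Nat.choose_pos hi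
  set S : ℕ → ℝ := fun i => T B r J i / (j.choose i : ℝ) with hS
  have hT : ∀ i, i ≤ j → T B r J i = (j.choose i : ℝ) * S i := by
    intro i hi
    rw [hS]
    simp only
    rw [mul_div_cancel₀ _ (hC i hi).ne']
  have hcast : ∀ i : ℕ, i < j → (0 : ℝ) < (j : ℝ) - i := fun i hi => by
    have : (i : ℝ) < j := by exact_mod_cast hi
    linarith
  -- monotonicity
  have m1 : ∀ i, r ≤ i → i < j → S (i + 1) ≤ S i := by
    intro i hi hij
    have h := T_mono B r J i hi
    rw [hJ, hT i hij.le, hT (i + 1) hij] at h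
    have hc := choose_step j i hij
    have hpos : 0 < (j.choose i : ℝ) * ((j : ℝ) - i) := mul_pos (hC i hij.le) (hcast i hij)
    have e1 : ((i : ℝ) + 1) * ((j.choose (i + 1) : ℝ) * S (i + 1)) =
        (j.choose i : ℝ) * ((j : ℝ) - i) * S (i + 1) := by rw [← hc]; ring
    have e2 : ((j : ℝ) - i) * ((j.choose i : ℝ) * S i) = (j.choose i : ℝ) * ((j : ℝ) - i) * S i := by
      ring
    rw [e1, e2] at h
    exact le_of_mul_le_mul_left h hpos
  -- convexity
  have m2 : ∀ i, r ≤ i → i + 1 < j → S (i + 1) - S (i + 2) ≤ S i - S (i + 1) := by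
    intro i hi hij
    have h := T_conv B r J i hi
    rw [hJ, hT i (by omega), hT (i + 1) (by omega), hT (i + 2) (by omega)] at h
    have hc1 := choose_step j i (by omega)
    have hc2 := choose_step j (i + 1) hij
    push_cast at hc2
    have p0 := hC i (by omega)
    have p1 := hcast i (by omega)
    have p2 : (0 : ℝ) < (j : ℝ) - i - 1 := by
      have := hcast (i + 1) hij
      push_cast at this
      linarith
    set c0 : ℝ := (j.choose i : ℝ)
    set c1 : ℝ := (j.choose (i + 1) : ℝ)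
    set c2 : ℝ := (j.choose (i + 2) : ℝ)
    have hc2' : c2 * ((i : ℝ) + 2) = c1 * ((j : ℝ) - i - 1) := by
      have : c2 * ((i : ℝ) + 1 + 1) = c1 * ((j : ℝ) - (i + 1)) := hc2
      linarith
    -- multiply by (i + 1)
    have q : 0 ≤ (c0 * ((j : ℝ) - i) * (j - i - 1)) *
        ((i + 1) * S i - 2 * (i + 2) * S (i + 1) + (i + 3) * S (i + 2)) := by
      have h' := mul_nonneg (show (0 : ℝ) ≤ (i : ℝ) + 1 by positivity) h
      have e : ((i : ℝ) + 1) * (((j : ℝ) - i - 1) * (j - i) * (c0 * S i) -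
          2 * (i + 2) * (j - i - 1) * (c1 * S (i + 1)) + (i + 2) * (i + 3) * (c2 * S (i + 2))) =
          (c0 * ((j : ℝ) - i) * (j - i - 1)) *
            ((i + 1) * S i - 2 * (i + 2) * S (i + 1) + (i + 3) * S (i + 2)) := by
        have t1 : ((i : ℝ) + 1) * (c2 * (i + 2)) = c0 * ((j : ℝ) - i) * (j - i - 1) := by
          rw [hc2', ← hc1]; ring
        have t2 : ((i : ℝ) + 1) * c1 * (j - i - 1) = c0 * ((j : ℝ) - i) * (j - i - 1) := by
          rw [← hc1]; ring
        linear_combination (i + 3) * S (i + 2) * t1 - 2 * (i + 2) * S (i + 1) * t2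
      rw [e] at h'
      exact h'
    have q2 : 0 ≤ ((i : ℝ) + 1) * S i - 2 * (i + 2) * S (i + 1) + (i + 3) * S (i + 2) := by
      by_contra hneg
      push Not at hneg
      have := mul_neg_of_pos_of_neg (mul_pos (mul_pos p0 p1) p2) hneg
      linarith
    have q3 := m1 (i + 1) (by omega) hij
    have q4 : ((i : ℝ) + 1) * (S (i + 1) - S (i + 2)) ≤ (i + 1) * (S i - S (i + 1)) := by
      have : S (i + 1 + 1) = S (i + 2) := rfl
      rw [this] at q3
      nlinarith
    exact le_of_mul_le_mul_left q4 (by positivity)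
  have hconv := conv_abs S r j m1 m2 rp hr hrp
  -- values
  set yb : ℝ := Nn B r J with hyb
  have hyb1 : y ≤ yb := by
    rw [hyb]
    unfold Nn b
    rw [hJ, le_div_iff₀ (hC r hrj.le)]
    exact hB
  have hSj : S j = yb ^ 2 := by
    rw [hS]
    simp only [T]
    rw [← hJ, powersetCard_self, sum_singleton, Nat.choose_self, hyb]
    simp
  have hNr : ∀ K ∈ powersetCard r J, Nn B r K = if K ∈ B then 1 else 0 := by
    intro K hK
    rw [mem_powersetCard] at hK
    unfold Nn b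
    rw [hK.2, Nat.choose_self, ← hK.2, powersetCard_self, filter_singleton]
    split_ifs <;> simp
  have hsumr : ∑ K ∈ powersetCard r J, Nn B r K = (j.choose r : ℝ) * yb := by
    rw [sum_congr rfl hNr, ← sum_filter, sum_const, nsmul_eq_mul, mul_one, hyb]
    unfold Nn b
    rw [hJ, mul_div_cancel₀ _ (hC r hrj.le).ne']
  have hSr : S r = yb := by
    rw [hS]
    simp only [T]
    have e : ∑ K ∈ powersetCard r J, Nn B r K ^ 2 = ∑ K ∈ powersetCard r J, Nn B r K := by
      refine sum_congr rfl fun K hK => ?_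
      rw [hNr K hK]
      split_ifs <;> simp
    rw [e, hsumr, mul_comm, mul_div_assoc, div_self (hC r hrj.le).ne', mul_one]
  have hM : ∀ k, r ≤ k → k ≤ j → ∑ K ∈ powersetCard k J, Nn B r K = (j.choose k : ℝ) * yb := by
    intro k hk
    induction k, hk using Nat.le_induction with
    | base => intro _; exact hsumr
    | succ k hk ih =>
      intro hkj
      have h := M_step B r J k hk
      rw [ih (by omega), hJ] at h
      have hc := choose_step j k hkj
      have hp : (0 : ℝ) < (k : ℝ) + 1 := by positivity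
      refine mul_left_cancel₀ hp.ne' ?_
      rw [h]
      linear_combination (-yb) * hc
  -- variance
  have hvar : ∑ K ∈ powersetCard rp J, (Nn B r K - yb) ^ 2 =
      (j.choose rp : ℝ) * (S rp - yb ^ 2) := by
    have e : ∀ K ∈ powersetCard rp J, (Nn B r K - yb) ^ 2 =
        Nn B r K ^ 2 - 2 * yb * Nn B r K + yb ^ 2 := fun K _ => by ring
    rw [sum_congr rfl e, sum_add_distrib, sum_sub_distrib, ← mul_sum, hM rp hr hrp, sum_const,
      nsmul_eq_mul, card_powersetCard, hJ]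
    have := hT rp hrp
    unfold T at this
    rw [this]
    ring
  -- Chebyshev
  have hyb0 : 0 < yb := lt_of_lt_of_le hy hyb1
  set F := (powersetCard rp J).filter fun K =>
      (((powersetCard r K).filter fun I => I ∈ B).card : ℝ) < y / 2 * (rp.choose r : ℝ) with hF
  have hcheb : (F.card : ℝ) * (yb / 2) ^ 2 ≤ ∑ K ∈ powersetCard rp J, (Nn B r K - yb) ^ 2 := by
    have h1 : ∑ K ∈ F, (yb / 2) ^ 2 ≤ ∑ K ∈ F, (Nn B r K - yb) ^ 2 := by
      refine sum_le_sum fun K hK => ?_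
      rw [hF, mem_filter, mem_powersetCard] at hK
      have hcp : (0 : ℝ) < (rp.choose r : ℝ) := by exact_mod_cast Nat.choose_pos hr
      have hn : Nn B r K < y / 2 := by
        unfold Nn b
        rw [hK.1.2, div_lt_iff₀ hcp]
        exact hK.2
      nlinarith
    rw [sum_const, nsmul_eq_mul] at h1
    exact h1.trans (sum_le_sum_of_subset_of_nonneg (filter_subset _ _) fun _ _ _ => sq_nonneg _)
  rw [hvar] at hcheb
  rw [hSj, hSr] at hconv
  have hjr := hcast r hrj
  have hjrp : (0 : ℝ) ≤ (j : ℝ) - rp := by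
    have : (rp : ℝ) ≤ j := by exact_mod_cast hrp
    linarith
  have hCp := hC rp hrp
  -- combine
  rw [div_mul_eq_mul_div, le_div_iff₀ (mul_pos hjr hy)]
  have c1 : (F.card : ℝ) * (yb / 2) ^ 2 * (j - r) ≤ (j.choose rp : ℝ) * ((j - rp) * (yb - yb ^ 2)) := by
    have b1 := mul_le_mul_of_nonneg_right hcheb hjr.le
    have b2 := mul_le_mul_of_nonneg_left hconv hCp.le
    refine b1.trans (le_trans (le_of_eq ?_) b2)
    ring
  have c2 : (F.card : ℝ) * yb ^ 2 * (j - r) ≤ 4 * (j.choose rp : ℝ) * ((j - rp) * yb) := by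
    have b3 : (0 : ℝ) ≤ (j.choose rp : ℝ) * ((j - rp) * yb ^ 2) := by positivity
    nlinarith
  have c3 : yb * ((F.card : ℝ) * (((j : ℝ) - r) * yb)) ≤
      yb * (4 * ((j : ℝ) - rp) * (j.choose rp : ℝ)) := by
    refine le_trans (le_of_eq ?_) (c2.trans (le_of_eq ?_)) <;> ring
  have c4 := le_of_mul_le_mul_left c3 hyb0
  refine le_trans ?_ c4
  refine mul_le_mul_of_nonneg_left ?_ (Nat.cast_nonneg _)
  exact mul_le_mul_of_nonneg_left hyb1 hjr.le

theorem v : SV := fun _ r rp j J hJ hr hrp hrj B y hy hB => main r rp j J hJ hr hrp hrj B y hy hB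

end

end Pool.Agent.R543.SGV
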